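import Mathlib

set_option autoImplicit false

open Metric Filter Topology

namespace Pool.Agent.Results.MP_a0c03c_an.Counterexample

section

variable (A : Type) [NonUnitalNormedRing A] [NormedSpace ℂ A] [IsScalarTower ℂ A A]
  [SMulCommClass ℂ A A]

def Sq : Submodule ℂ A := Submodule.span ℂ {z | ∃ a b, z = a * b}

def Rad : Set A := {x | (x : Unitization ℂ A) ∈ Ring.jacobson (Unitization ℂ A)}

def PropS : Prop := ∃ C : ℝ, 0 < C ∧ ∀ x ∈ Sq A, ∃ (ι : Type) (_ : Fintype ι) (a b : ι → A),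
  x = ∑ i, a i * b i ∧ ∑ i, ‖a i‖ * ‖b i‖ ≤ C * ‖x‖

def QuotPropS (R : Set A) : Prop := ∃ C : ℝ, 0 < C ∧ ∀ x ∈ Sq A,
  ∃ (ι : Type) (_ : Fintype ι) (a b : ι → A), x - ∑ i, a i * b i ∈ R ∧
    ∑ i, infDist (a i) R * infDist (b i) R ≤ C * infDist x R

variable {A}

lemma mul_mem (a b : A) : a * b ∈ Sq A := Submodule.subset_span ⟨a, b, rfl⟩

lemma sq_rep {x : A} (hx : x ∈ Sq A) : ∃ (n : ℕ) (a b : Fin n → A), x = ∑ i, a i * b i := by
  obtain ⟨n, f, g, rfl⟩ := Submodule.mem_span_set'.1 hx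
  choose a b h using fun i => (g i).2
  exact ⟨n, fun i => f i • a i, b, by simp [h, smul_mul_assoc]⟩

lemma le_inf {R : Set A} (hR : R.Nonempty) (a : A) {c k : ℝ} (hk : 0 ≤ k)
    (h : ∀ s ∈ R, c ≤ dist a s * k) : c ≤ infDist a R * k := by
  rcases hk.eq_or_lt with rfl | hk
  · obtain ⟨s, hs⟩ := hR
    simpa using h s hs
  · exact (div_le_iff₀ hk).1 ((le_infDist hR).2 fun s hs => (div_le_iff₀ hk).2 (h s hs))

lemma fail (r : A) (h1 : ∀ a, r * a = 0) (h2 : ∀ a, a * r = 0) (h3 : r ∈ closure (Sq A : Set A))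
    (h4 : r ∉ Sq A) : ¬ QuotPropS A (Submodule.span ℂ {r} : Submodule ℂ A) := by
  rintro ⟨C, hC, h⟩
  set R : Set A := ((Submodule.span ℂ {r} : Submodule ℂ A) : Set A)
  have hr : r ∈ R := Submodule.mem_span_singleton_self r
  have hb : ∀ a b : A, ‖a * b‖ ≤ infDist a R * infDist b R := fun a b => by
    refine le_inf ⟨r, hr⟩ a infDist_nonneg fun s hs => ?_
    rw [mul_comm]
    refine le_inf ⟨r, hr⟩ b dist_nonneg fun t ht => ?_
    obtain ⟨c, rfl⟩ := Submodule.mem_span_singleton.1 hs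
    obtain ⟨d, rfl⟩ := Submodule.mem_span_singleton.1 ht
    rw [dist_eq_norm, dist_eq_norm, mul_comm]
    refine le_trans (le_of_eq ?_) (norm_mul_le _ _)
    simp [mul_sub, sub_mul, smul_mul_assoc, mul_smul_comm, h1, h2]
  have key : ∀ x ∈ (Sq A : Set A), ‖x‖ ≤ C * dist x r := fun x hx => by
    obtain ⟨ι, _, a, b, e, hc⟩ := h x hx
    obtain ⟨c, e⟩ := Submodule.mem_span_singleton.1 e
    have hc0 : c = 0 := by
      by_contra hn
      refine h4 ((Submodule.smul_mem_iff _ hn).1 ?_)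
      rw [e]
      exact (Sq A).sub_mem hx ((Sq A).sum_mem fun i _ => mul_mem _ _)
    rw [hc0, zero_smul, eq_comm, sub_eq_zero] at e
    calc ‖x‖ ≤ ∑ i, ‖a i * b i‖ := by rw [e]; exact norm_sum_le _ _
      _ ≤ _ := Finset.sum_le_sum fun i _ => hb _ _
      _ ≤ _ := hc
      _ ≤ _ := by gcongr; exact infDist_le_dist_of_mem hr
  have := closure_minimal (t := {x | ‖x‖ ≤ C * dist x r}) key
    (isClosed_le (by fun_prop) (by fun_prop)) h3
  simp only [Set.mem_setOf_eq, dist_self, mul_zero, norm_le_zero_iff] at this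
  exact h4 (this ▸ (Sq A).zero_mem)

lemma ann_rad (r : A) (h2 : ∀ a, a * r = 0) : r ∈ Rad A := by
  rw [Rad, Set.mem_setOf_eq, ← Ideal.jacobson_bot, Ideal.mem_jacobson_iff]
  refine fun y => ⟨1 - y * r, ?_⟩
  rw [Ideal.mem_bot]
  ext <;> simp [sub_eq_add_neg, h2, mul_add, add_mul]

end

noncomputable section

abbrev L : Type := lp (fun _ : ℕ => ℂ) 1

lemma half (a b : L) : Memℓp (fun k => a k * b k) (1 / 2) := by
  haveI : ENNReal.HolderTriple 1 1 (1 / 2) := ⟨by norm_num⟩
  exact (lp.memℓp a).holder _ (lp.memℓp b) (fun _ => ContinuousLinearMap.mul ℂ ℂ) (K := 1)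
    fun _ => ContinuousLinearMap.opNorm_mul_le ℂ ℂ

def pm (a b : L) : L := ⟨fun k => a k * b k, (half a b).of_exponent_ge (by norm_num)⟩

@[simp] lemma pm_apply (a b : L) (k : ℕ) : pm a b k = a k * b k := rfl

lemma pm_norm (a b : L) : ‖pm a b‖ ≤ ‖a‖ * ‖b‖ := by
  refine (lp.norm_mono (y := (‖a‖ : ℂ) • b) one_ne_zero fun k => ?_).trans (by rw [norm_smul]; simp)
  simp only [pm_apply, norm_mul, lp.coeFn_smul, Pi.smul_apply, norm_smul, Complex.norm_real, norm_norm]
  gcongr
  exact lp.norm_apply_le_norm one_ne_zero a k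

def N : Type := L × L

instance : NormedAddCommGroup N := inferInstanceAs (NormedAddCommGroup (L × L))
instance : NormedSpace ℂ N := inferInstanceAs (NormedSpace ℂ (L × L))
instance : CompleteSpace N := inferInstanceAs (CompleteSpace (L × L))

lemma N.ext {x y : N} (h1 : ∀ k, x.1 k = y.1 k) (h2 : ∀ k, x.2 k = y.2 k) : x = y :=
  Prod.ext (lp.ext (funext h1)) (lp.ext (funext h2))

instance : NonUnitalNormedRing N :=
  { (inferInstance : NormedAddCommGroup N) with
    mul := fun x y => (0, pm x.1 y.1)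
    left_distrib := fun x y z => N.ext (fun _ => (add_zero _).symm) fun _ => mul_add _ _ _
    right_distrib := fun x y z => N.ext (fun _ => (add_zero _).symm) fun _ => add_mul _ _ _
    zero_mul := fun x => N.ext (fun _ => rfl) fun _ => zero_mul _
    mul_zero := fun x => N.ext (fun _ => rfl) fun _ => mul_zero _
    mul_assoc := fun x y z => N.ext (fun _ => rfl) fun _ => (zero_mul _).trans (mul_zero _).symm
    norm_mul_le := fun x y => max_le (norm_zero.trans_le (by positivity)) ((pm_norm _ _).trans (by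
      gcongr <;> exact le_max_left _ _)) }

instance : IsScalarTower ℂ N N :=
  ⟨fun c x y => N.ext (fun _ => (mul_zero c).symm) fun _ => mul_assoc c _ _⟩
instance : SMulCommClass ℂ N N :=
  ⟨fun c x y => N.ext (fun _ => mul_zero c) fun _ => mul_left_comm c _ _⟩

def P (s : Finset ℕ) (a : L) : L := ∑ k ∈ s, lp.single 1 k (a k)

lemma P_apply (s : Finset ℕ) (a : L) (k : ℕ) : P s a k = if k ∈ s then a k else 0 := by
  rw [P, lp.coeFn_sum]
  simp [Finset.sum_pi_single]

lemma P_lim (a : L) : Tendsto (fun s => P s a) atTop (𝓝 a) := lp.hasSum_single (by simp) a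

def U (a : L) : N := (a, 0)
def V (a : L) : N := (0, a)

lemma U_norm (a : L) : ‖U a‖ = ‖a‖ := by
  change max ‖a‖ ‖(0 : L)‖ = _
  simp

lemma V_P (s : Finset ℕ) (a : L) :
    V (P s a) = ∑ k : s, U (lp.single 1 k (a k)) * U (lp.single 1 k 1) := by
  have : ∀ k : s, U (lp.single 1 k (a k)) * U (lp.single 1 k 1) =
      LinearMap.inr ℂ L L (lp.single 1 k (a k)) := fun k => N.ext (fun _ => rfl) fun j => by
    change (lp.single 1 k.1 (a k) : L) j * (lp.single 1 k.1 1 : L) j = (lp.single 1 k.1 (a k) : L) j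
    by_cases h : j = k <;> simp [h, Pi.single_apply]
  simp only [this]
  rw [P, ← Finset.sum_coe_sort]
  exact map_sum (LinearMap.inr ℂ L L) _ _

lemma sum1 {ι : Type} [Fintype ι] (a b : ι → N) (k : ℕ) : (∑ i, a i * b i).1 k = 0 := by
  rw [show (∑ i, a i * b i).1 = _ from map_sum (LinearMap.fst ℂ L L) _ _, lp.coeFn_sum,
    Finset.sum_apply]
  exact Finset.sum_eq_zero fun _ _ => rfl

lemma sum2 {ι : Type} [Fintype ι] (a b : ι → N) (k : ℕ) :
    (∑ i, a i * b i).2 k = ∑ i, (a i).1 k * (b i).1 k := by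
  rw [show (∑ i, a i * b i).2 = _ from map_sum (LinearMap.snd ℂ L L) _ _, lp.coeFn_sum,
    Finset.sum_apply]
  rfl

lemma N_S : ∀ x ∈ Sq N, ∃ (ι : Type) (_ : Fintype ι) (a b : ι → N),
    x = ∑ i, a i * b i ∧ ∑ i, ‖a i‖ * ‖b i‖ ≤ 2 * ‖x‖ := fun x hx => by
  obtain ⟨n, a, b, e⟩ := sq_rep hx
  rcases eq_or_ne x 0 with rfl | h0
  · exact ⟨Empty, inferInstance, fun _ => 0, fun _ => 0, by simp, by simp⟩
  have ht : Tendsto (fun s => ∑ i, ‖(a i).1 - P s (a i).1‖ * ‖b i‖) atTop
      (𝓝 (∑ i, ‖(a i).1 - (a i).1‖ * ‖b i‖)) :=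
    tendsto_finsetSum _ fun i _ => ((P_lim _).const_sub _).norm.mul_const _
  obtain ⟨s, hs⟩ := (ht.eventually (gt_mem_nhds (a := ‖x‖) (by simpa using h0))).exists
  refine ⟨s ⊕ Fin n, inferInstance, Sum.elim (fun k => U (lp.single 1 k (x.2 k)))
    fun i => U ((a i).1 - P s (a i).1), Sum.elim (fun k => U (lp.single 1 k 1)) b, ?_, ?_⟩
  · refine N.ext (fun k => by rw [sum1, e, sum1]) fun k => ?_
    simp only [Fintype.sum_sum_type, Sum.elim_inl, Sum.elim_inr, ← V_P]
    change _ = P s x.2 k + (∑ i, U ((a i).1 - P s (a i).1) * b i).2 k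
    rw [sum2, P_apply]
    change _ = _ + ∑ i, ((a i).1 k - P s (a i).1 k) * (b i).1 k
    simp only [P_apply]
    split_ifs
    · simp
    · simp [e, sum2]
  · simp only [Fintype.sum_sum_type, Sum.elim_inl, Sum.elim_inr, U_norm]
    have := lp.sum_rpow_le_norm_rpow (p := 1) (by simp) x.2 s
    have h2 : ‖x.2‖ ≤ ‖x‖ := le_max_right _ _
    simp [← Finset.sum_coe_sort s] at this ⊢
    linarith

abbrev M : Type := Matrix (Fin 4) (Fin 4) ℂ

attribute [local instance] Matrix.linftyOpNormedRing Matrix.linftyOpNormedAlgebra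

def rho : L := ⟨fun k => (1 / ((k : ℝ) + 1) ^ 2 : ℝ), memℓp_gen (by
  refine ((summable_nat_add_iff 1).2 (Real.summable_one_div_nat_pow.2 one_lt_two)).congr fun k => ?_
  rw [Complex.norm_real, Real.norm_of_nonneg (by positivity)]
  simp)⟩

lemma rho_apply (k : ℕ) : rho k = (1 / ((k : ℝ) + 1) ^ 2 : ℝ) := rfl

def io (k : ℕ) : N →ₗ[ℂ] M where
  toFun x := !![0, -(rho k * x.1 0), x.1 k, x.2 k - rho k * x.2 0; 0, 0, 0, x.1 0; 0, 0, 0, x.1 k;
    0, 0, 0, 0]
  map_add' x y := by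
    have h1 : ∀ k, (x + y).1 k = x.1 k + y.1 k := fun _ => rfl
    have h2 : ∀ k, (x + y).2 k = x.2 k + y.2 k := fun _ => rfl
    ext i j; fin_cases i <;> fin_cases j <;> simp [h1, h2] <;> ring
  map_smul' c x := by
    have h1 : ∀ k, (c • x).1 k = c * x.1 k := fun _ => rfl
    have h2 : ∀ k, (c • x).2 k = c * x.2 k := fun _ => rfl
    ext i j; fin_cases i <;> fin_cases j <;> simp [h1, h2] <;> ring

lemma io_mul (k : ℕ) (x y : N) : io k (x * y) = io k x * io k y := by
  have h1 : ∀ k, (x * y).1 k = 0 := fun _ => rfl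
  have h2 : ∀ k, (x * y).2 k = x.1 k * y.1 k := fun _ => rfl
  ext i j; fin_cases i <;> fin_cases j <;> simp [io, h1, h2, Matrix.mul_apply, Fin.sum_univ_four]
  ring

lemma io_norm (k : ℕ) (x : N) : ‖io k x‖ ≤ 4 * ‖x‖ := by
  have h1 : ∀ k, ‖x.1 k‖₊ ≤ ‖x‖₊ := fun k =>
    (lp.norm_apply_le_norm one_ne_zero x.1 k).trans (le_max_left _ _)
  have h2 : ∀ k, ‖x.2 k‖₊ ≤ ‖x‖₊ := fun k =>
    (lp.norm_apply_le_norm one_ne_zero x.2 k).trans (le_max_right _ _)
  have h3 : ‖rho k‖₊ ≤ 1 := by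
    change ‖rho k‖ ≤ 1
    rw [rho_apply, Complex.norm_real, Real.norm_of_nonneg (by positivity), div_le_one (by positivity)]
    nlinarith [k.cast_nonneg (α := ℝ)]
  have h4 : ∀ z : ℂ, ‖z‖₊ ≤ ‖x‖₊ → ‖rho k * z‖₊ ≤ ‖x‖₊ := fun z hz => by
    rw [nnnorm_mul, ← one_mul ‖x‖₊]; gcongr
  have : ‖io k x‖₊ ≤ ‖x‖₊ + ‖x‖₊ + (‖x‖₊ + ‖x‖₊) := by
    rw [Matrix.linfty_opNNNorm_def, Finset.sup_le_iff]
    intro i _
    fin_cases i <;> simp [io, Fin.sum_univ_four, -nnnorm_mul]
    · exact add_le_add (add_le_add (h4 _ (h1 _)) (h1 _))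
        ((nnnorm_sub_le _ _).trans (add_le_add (h2 _) (h4 _ (h2 _))))
    all_goals exact (h1 _).trans (le_self_add.trans le_self_add)
  have : ‖io k x‖ ≤ ‖x‖ + ‖x‖ + (‖x‖ + ‖x‖) := this
  linarith

abbrev D : Type := lp (fun _ : ℕ × ℝ => M) ⊤

def G (x : N × D) : Prop := ∀ᶠ ω in cocountable, x.2 ω = io ω.1 x.1

def B : NonUnitalSubalgebra ℂ (N × D) where
  carrier := {x | G x}
  add_mem' := fun {x y} (hx : G x) (hy : G y) => show G _ by
    filter_upwards [hx, hy] with ω h1 h2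
    rw [Prod.fst_add, map_add, ← h1, ← h2]; rfl
  zero_mem' := show G _ from Eventually.of_forall fun ω => by rw [Prod.fst_zero, map_zero]; rfl
  mul_mem' := fun {x y} (hx : G x) (hy : G y) => show G _ by
    filter_upwards [hx, hy] with ω h1 h2
    rw [Prod.fst_mul, io_mul, ← h1, ← h2]; rfl
  smul_mem' := fun c x (hx : G x) => show G _ by
    filter_upwards [hx] with ω h1
    rw [Prod.smul_fst, map_smul, ← h1]; rfl

instance : NormedSpace ℂ B := inferInstanceAs (NormedSpace ℂ B.toSubmodule)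

instance : CompleteSpace D :=
  @lp.completeSpace _ _ _ _ _ fun _ => FiniteDimensional.complete ℂ _

lemma B_closed : IsClosed (B : Set (N × D)) := by
  haveI := CardinalInterFilter.toCountableInterFilter (cocountable : Filter (ℕ × ℝ))
    Cardinal.aleph0_lt_aleph_one
  refine IsSeqClosed.isClosed fun u x hu hx => ?_
  change ∀ᶠ ω in cocountable, x.2 ω = io ω.1 x.1
  filter_upwards [eventually_countable_forall.2 hu] with ω h
  exact tendsto_nhds_unique (((lp.evalCLM ℂ _ ⊤ ω).continuous.tendsto _).comp hx.snd_nhds)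
    (((((io ω.1).mkContinuous 4 (io_norm _)).continuous.tendsto _).comp hx.fst_nhds).congr
      fun n => (h n).symm)

def J : N →L[ℂ] B := LinearMap.mkContinuous
  { toFun := fun x => ⟨(x, ⟨fun ω => io ω.1 x, memℓp_infty ⟨4 * ‖x‖, by
      rintro _ ⟨ω, rfl⟩; exact io_norm _ _⟩⟩), show G _ from Eventually.of_forall fun _ => rfl⟩
    map_add' := fun x y => Subtype.ext (Prod.ext rfl (lp.ext (funext fun _ => map_add _ _ _)))
    map_smul' := fun c x => Subtype.ext (Prod.ext rfl (lp.ext (funext fun _ => map_smul _ _ _))) }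
  4 fun x => max_le (by change ‖x‖ ≤ _; linarith [norm_nonneg x])
    (lp.norm_le_of_forall_le (by positivity) fun _ => io_norm _ _)

lemma J_mul (x y : N) : J (x * y) = J x * J y :=
  Subtype.ext (Prod.ext rfl (lp.ext (funext fun _ => io_mul _ _ _)))

lemma J_norm (x : N) : ‖J x‖ ≤ 4 * ‖x‖ :=
  J.le_of_opNorm_le (LinearMap.mkContinuous_norm_le _ (C := 4) (by norm_num) _) x

lemma B_S : PropS B := by
  classical
  refine ⟨37, by norm_num, fun x hx => ?_⟩
  have h1 : x.1.1 ∈ Sq N := by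
    obtain ⟨n, a, b, rfl⟩ := sq_rep hx
    rw [show (∑ i, a i * b i).1.1 = _ from map_sum ((LinearMap.fst ℂ N D).comp B.toSubmodule.subtype) _ _]
    exact (Sq N).sum_mem fun i _ => mul_mem (a i).1.1 (b i).1.1
  obtain ⟨ι, _, a, b, e, hc⟩ := N_S _ h1
  let u : D := ⟨fun ω => if x.1.2 ω = io ω.1 x.1.1 then 0 else 1, memℓp_infty ⟨1, by
    rintro _ ⟨ω, rfl⟩; dsimp only; split_ifs <;> simp⟩⟩
  let v : B := ⟨(0, u), show G _ by
    filter_upwards [show G _ from x.2] with ω h
    exact (if_pos h).trans (map_zero _).symm⟩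
  have hv : ‖v‖ ≤ 1 := max_le (norm_zero.trans_le zero_le_one)
    (lp.norm_le_of_forall_le zero_le_one fun ω => by
      change ‖if _ then _ else _‖ ≤ _
      split_ifs <;> simp)
  have hx1 : ‖x.1.1‖ ≤ ‖x‖ := le_max_left _ _
  refine ⟨Option ι, inferInstance, fun o => o.elim (x - J x.1.1) fun i => J (a i),
    fun o => o.elim v fun i => J (b i), ?_, ?_⟩
  · simp only [Fintype.sum_option, Option.elim, ← J_mul, ← map_sum, ← e]
    refine eq_add_of_sub_eq (Subtype.ext (Prod.ext ((sub_self _).trans (mul_zero _).symm)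
      (lp.ext (funext fun ω => ?_))))
    change x.1.2 ω - io ω.1 x.1.1 = (x.1.2 ω - io ω.1 x.1.1) * if _ then _ else _
    split_ifs with h <;> simp [h]
  · simp only [Fintype.sum_option, Option.elim]
    have h2 : ‖x - J x.1.1‖ * ‖v‖ ≤ (‖x‖ + 4 * ‖x.1.1‖) * 1 := by
      gcongr
      exact (norm_sub_le _ _).trans (by gcongr; exact J_norm _)
    have h3 : ∑ i, ‖J (a i)‖ * ‖J (b i)‖ ≤ ∑ i, 16 * (‖a i‖ * ‖b i‖) :=
      Finset.sum_le_sum fun i _ => (mul_le_mul (J_norm _) (J_norm _) (norm_nonneg _)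
        (by positivity)).trans_eq (by ring)
    rw [← Finset.mul_sum] at h3
    linarith

lemma io_rho (k : ℕ) : io k (V rho) = 0 := by
  have : rho 0 = 1 := by simp [rho_apply]
  ext i j; fin_cases i <;> fin_cases j <;> simp [io, V, this]

lemma ann1 (a : B) : J (V rho) * a = 0 :=
  Subtype.ext (Prod.ext (N.ext (fun _ => rfl) fun _ => zero_mul _) (lp.ext (funext fun ω => by
    change io ω.1 (V rho) * _ = 0
    rw [io_rho, zero_mul])))

lemma ann2 (a : B) : a * J (V rho) = 0 :=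
  Subtype.ext (Prod.ext (N.ext (fun _ => rfl) fun _ => mul_zero _) (lp.ext (funext fun ω => by
    change _ * io ω.1 (V rho) = 0
    rw [io_rho, mul_zero])))

lemma rad_ev (x : B) (hx : x ∈ Rad B) (ω : ℕ × ℝ) : x.1.2 ω = 0 := by
  classical
  let π : B →ₙₐ[ℂ] M :=
    { toFun := fun x => x.1.2 ω
      map_smul' := fun _ _ => rfl
      map_zero' := rfl
      map_add' := fun _ _ => rfl
      map_mul' := fun _ _ => rfl }
  haveI : RingHomSurjective (Unitization.lift π).toRingHom := ⟨fun y =>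
    ⟨((⟨(0, lp.single ⊤ ω y), mem_cocountable.2 ((Set.countable_singleton ω).mono fun t ht => by
      by_contra h
      exact ht ((lp.single_apply_ne _ _ _ h).trans (map_zero _).symm))⟩ : B) : Unitization ℂ B), by
        simp [π]⟩⟩
  have := Ring.le_comap_jacobson (Unitization.lift π).toRingHom hx
  simpa [IsSemisimpleRing.jacobson_eq_bot, π] using this

lemma rad_eq : Rad B = (Submodule.span ℂ {J (V rho)} : Submodule ℂ B) := by
  refine Set.Subset.antisymm (fun x hx => ?_) fun x hx => ?_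
  · have h : ∀ k, io k x.1.1 = 0 := fun k => by
      by_contra hn
      refine Cardinal.not_countable_real (Set.countable_of_injective_of_countable_image
        (f := fun t => (k, t)) (Prod.mk_right_injective k).injOn ((mem_cocountable.1 x.2).mono ?_))
      rintro _ ⟨t, -, rfl⟩ h
      exact hn (h.symm.trans (rad_ev x hx _))
    refine Submodule.mem_span_singleton.2 ⟨x.1.1.2 0, Subtype.ext (Prod.ext (N.ext (fun k => ?_)
      fun k => ?_) (lp.ext (funext fun ω => ?_)))⟩
    · exact (mul_zero _).trans (congrFun (congrFun (h k) 0) 2).symm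
    · exact (mul_comm _ _).trans (sub_eq_zero.1 (congrFun (congrFun (h k) 0) 3)).symm
    · change x.1.1.2 0 • io ω.1 (V rho) = _
      rw [io_rho, smul_zero, rad_ev x hx]
  · obtain ⟨c, rfl⟩ := Submodule.mem_span_singleton.1 hx
    exact ann_rad _ fun a => by rw [mul_smul_comm, ann2, smul_zero]

lemma r_closure : J (V rho) ∈ closure (Sq B : Set B) := by
  refine mem_closure_of_tendsto (((J.comp (ContinuousLinearMap.inr ℂ L L)).continuous.tendsto _).comp
    (P_lim rho)) (Eventually.of_forall fun s => ?_)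
  change J (V (P s rho)) ∈ _
  rw [V_P, map_sum]
  exact (Sq B).sum_mem fun k _ => J_mul _ _ ▸ mul_mem _ _

lemma r_not : J (V rho) ∉ Sq B := fun h => by
  have : Memℓp (fun k => rho k) (1 / 2) := by
    obtain ⟨n, a, b, e⟩ := sq_rep h
    have e' : V rho = ∑ i, (a i).1.1 * (b i).1.1 := (congrArg (fun y : B => y.1.1) e).trans
      (map_sum ((LinearMap.fst ℂ N D).comp B.toSubmodule.subtype) _ _)
    have : (fun k => rho k) = fun k => ∑ i, (a i).1.1.1 k * (b i).1.1.1 k := funext fun k => by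
      rw [← sum2, ← e']; rfl
    rw [this]
    exact Memℓp.finsetSum _ fun i _ => half _ _
  refine Real.not_summable_one_div_natCast ((summable_nat_add_iff 1).1
    ((this.summable (by norm_num)).congr fun k => ?_))
  change ‖rho k‖ ^ _ = _
  rw [rho_apply, Complex.norm_real, Real.norm_of_nonneg (by positivity), ← one_div_pow,
    ← Real.rpow_natCast, ← Real.rpow_mul (by positivity)]
  norm_num

theorem result : ∃ (A : Type) (_ : NonUnitalNormedRing A) (_ : NormedSpace ℂ A)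
    (_ : IsScalarTower ℂ A A) (_ : SMulCommClass ℂ A A) (_ : CompleteSpace A),
    (∃ R : Submodule ℂ A, FiniteDimensional ℂ R ∧ Rad A = R) ∧ PropS A ∧ ¬ QuotPropS A (Rad A) :=
  ⟨B, inferInstance, inferInstance, inferInstance, inferInstance, B_closed.completeSpace_coe,
    ⟨_, inferInstance, rad_eq⟩, B_S, rad_eq ▸ fail _ ann1 ann2 r_closure r_not⟩

end

end Pool.Agent.Results.MP_a0c03c_an.Counterexample
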